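import Pool.Agent.Helper48_AN2.FRU

/-!
# P1: the ladder, and the consequences of `U < 1`
-/

set_option autoImplicit false
set_option linter.unusedSectionVars false

open MeasureTheory ProbabilityTheory Function Filter

open scoped ENNReal BigOperators Topology NNReal ComplexOrder Matrix

noncomputable section

namespace Pool.Agent.AN2.H48

open Pool.Agent.Anderson hiding box mem_box card_box
open Pool.Agent.Loc Pool.Agent.Mob Pool.Agent.Helper54.Bal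
  Pool.Agent.Helper96.EXP Pool.Agent.BED
open Pool.Agent.LE.MN Pool.Agent.LE.CL Pool.Agent.LE.IR Pool.Agent.LE.QD
open Pool.Agent.LE.QF Pool.Agent.LE.QF.H40

variable {X : Type} [Fintype X] [DecidableEq X]

theorem dot_comm' (f g : X → ℝ) : f ⬝ᵥ g = g ⬝ᵥ f := dotProduct_comm f g

theorem qf_sub' {A : Matrix X X ℝ} (hA : Aᵀ = A) (u w : X → ℝ) :
    qf A (u - w) = qf A u - 2 * (u ⬝ᵥ (A *ᵥ w)) + qf A w := by
  have h1 : w ⬝ᵥ (A *ᵥ u) = u ⬝ᵥ (A *ᵥ w) := by rw [sym_dot hA, dotProduct_comm]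
  rw [qf_dot, qf_dot, qf_dot, Matrix.mulVec_sub, sub_dotProduct, dotProduct_sub, dotProduct_sub,
    h1]
  ring

/-- the inverse is antitone -/
theorem inv_anti {A A' B B' : Matrix X X ℝ} (hA : Aᵀ = A) (h1 : A * A' = 1) (h2 : B * B' = 1)
    (h0 : ∀ f, 0 ≤ qf A f) (hAB : ∀ f, qf A f ≤ qf B f) (f : X → ℝ) : qf B' f ≤ qf A' f := by
  have hu : B *ᵥ (B' *ᵥ f) = f := by rw [Matrix.mulVec_mulVec, h2, Matrix.one_mulVec]
  have hw : A *ᵥ (A' *ᵥ f) = f := by rw [Matrix.mulVec_mulVec, h1, Matrix.one_mulVec]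
  have h3 := h0 (B' *ᵥ f - A' *ᵥ f)
  rw [qf_sub' hA, hw] at h3
  have h4 := hAB (B' *ᵥ f)
  have h5 : qf B (B' *ᵥ f) = (B' *ᵥ f) ⬝ᵥ f := by rw [qf_dot, hu]
  have h6 : qf A (A' *ᵥ f) = (A' *ᵥ f) ⬝ᵥ f := by rw [qf_dot, hw]
  have h7 : qf B' f = (B' *ᵥ f) ⬝ᵥ f := by rw [qf_dot, dotProduct_comm]
  have h8 : qf A' f = (A' *ᵥ f) ⬝ᵥ f := by rw [qf_dot, dotProduct_comm]
  rw [h7, h8]
  linarith

theorem inv_sym {A A' : Matrix X X ℝ} (hA : Aᵀ = A) (h1 : A * A' = 1) : A'ᵀ = A' := by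
  have h2 : A' * A = 1 := mul_eq_one_comm.1 h1
  have h3 : A'ᵀ * A = 1 := by
    have := congrArg Matrix.transpose h1
    rwa [Matrix.transpose_mul, hA, Matrix.transpose_one] at this
  calc A'ᵀ = A'ᵀ * (A * A') := by rw [h1, mul_one]
    _ = A' := by rw [← mul_assoc, h3, one_mul]

theorem isUnit_of_pos {A : Matrix X X ℝ} (h : ∀ f : X → ℝ, f ≠ 0 → 0 < qf A f) :
    IsUnit A.det := by
  rw [isUnit_iff_ne_zero]
  intro h0
  obtain ⟨f, hf, hf0⟩ := Matrix.exists_mulVec_eq_zero_iff.2 h0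
  have := h f hf
  rw [qf_dot, hf0, dotProduct_zero] at this
  exact lt_irrefl _ this

theorem pos_DD {X₀ D : Matrix X X ℝ} (hD : Dᵀ * X₀ * D = 1) (f : X → ℝ) (hf : f ≠ 0) :
    0 < qf (D * Dᵀ) f := by
  have e4 : D * Dᵀ = (Dᵀ)ᵀ * 1 * Dᵀ := by rw [mul_one, Matrix.transpose_transpose]
  rw [e4, qf_conj, qf_one]
  have h1 := dot_nn (Dᵀ *ᵥ f)
  refine lt_of_le_of_ne h1 fun h2 => hf ?_
  rw [← sq_dot] at h2
  have h3 : Dᵀ *ᵥ f = 0 := by
    funext a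
    have := (Finset.sum_eq_zero_iff_of_nonneg fun a _ => sq_nonneg ((Dᵀ *ᵥ f) a)).1 h2.symm a
      (Finset.mem_univ a)
    exact pow_eq_zero_iff (two_ne_zero) |>.1 this
  obtain ⟨hi1, hi2⟩ := inv_of hD
  have h4 : (X₀ * D) *ᵥ (Dᵀ *ᵥ f) = f := by
    rw [Matrix.mulVec_mulVec, hi1, Matrix.one_mulVec]
  rw [← h4, h3, Matrix.mulVec_zero]

/-- LAD: the ladder `(X₀⁻¹ + diag lam)⁻¹`. -/
theorem lad (jal : JalStmt) (jma : JmaStmt)
    {ι : Type} [Fintype ι] [DecidableEq ι] (q : ℝ × (ι → ℝ))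
    (X₀ D : Matrix X X ℝ) (lam : ℝ → X → ℝ) (c : ℝ) (hc : 0 ≤ c)
    (hD : Dᵀ * X₀ * D = 1)
    (hs : ∀ x, ContDiffAt ℝ 2 (fun t => lam t x) q.1) (h0 : ∀ x, 0 ≤ lam q.1 x)
    (hL : ∀ f, qf (Matrix.diagonal (lam q.1)) f ≤ c * qf (D * Dᵀ) f) :
    ∃ β : Matrix X X ℝ, β * (D * Dᵀ + Matrix.diagonal (lam q.1)) = 1 ∧ βᵀ = β ∧
      HM (fun r : ℝ × (ι → ℝ) => (D * Dᵀ + Matrix.diagonal (lam r.1))⁻¹) q β (fun _ => 0)
        (-(β * Matrix.diagonal (fun x => deriv (fun t => lam t x) q.1) * β)) ∧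
      (∀ f, 0 ≤ qf β f) ∧ (∀ f, qf β f ≤ qf X₀ f) ∧ ∀ f, qf X₀ f ≤ (1 + c) * qf β f := by
  obtain ⟨hi1, hi2⟩ := inv_of hD
  set A : Matrix X X ℝ := D * Dᵀ + Matrix.diagonal (lam q.1) with hA
  have hdg : ∀ f : X → ℝ, 0 ≤ qf (Matrix.diagonal (lam q.1)) f := by
    intro f
    rw [qf_dot]
    refine Finset.sum_nonneg fun x _ => ?_
    rw [Matrix.mulVec_diagonal]
    nlinarith [h0 x, sq_nonneg (f x), mul_nonneg (h0 x) (sq_nonneg (f x))]
  have hApos : ∀ f : X → ℝ, f ≠ 0 → 0 < qf A f := by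
    intro f hf
    have h1 := pos_DD hD f hf
    have h2 := hdg f
    rw [hA, qf_add]
    linarith
  have hu := isUnit_of_pos hApos
  have hA1 : A * A⁻¹ = 1 := Matrix.mul_nonsing_inv A hu
  have hA2 : A⁻¹ * A = 1 := Matrix.nonsing_inv_mul A hu
  have hAs : Aᵀ = A := by
    rw [hA, Matrix.transpose_add, Matrix.transpose_mul, Matrix.transpose_transpose,
      Matrix.diagonal_transpose]
  have hDs : (D * Dᵀ)ᵀ = D * Dᵀ := by
    rw [Matrix.transpose_mul, Matrix.transpose_transpose]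
  have hD0 : ∀ f : X → ℝ, 0 ≤ qf (D * Dᵀ) f := by
    intro f
    rcases eq_or_ne f 0 with h | h
    · rw [h, qf_dot, zero_dotProduct]
    · exact (pos_DD hD f h).le
  have hi3 : (D * Dᵀ) * X₀ = 1 := hi2
  refine ⟨A⁻¹, hA2, inv_sym hAs hA1, ?_, ?_, ?_, ?_⟩
  · -- the jet
    have hdiag : HM (fun r : ℝ × (ι → ℝ) => Matrix.diagonal (lam r.1)) q
        (Matrix.diagonal (lam q.1)) (fun _ => 0)
        (Matrix.diagonal (fun x => deriv (fun t => lam t x) q.1)) := by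
      intro x y
      by_cases h : x = y
      · subst h
        simp only [Matrix.diagonal_apply_eq]
        exact (jal ι ℝ q).2.2.2.2.2.2.1 (fun t => lam t x) (hs x)
      · simp only [Matrix.diagonal_apply_ne _ h]
        exact (jal ι ℝ q).1 0
    have h1 := hm_add jal (hm_const jal q (D * Dᵀ)) hdiag
    have h2 := ((jma ι ℝ q).2 X _ _ _ _ h1).1 hu
    simpa using h2
  · intro f
    rcases eq_or_ne f 0 with h | h
    · rw [h, qf_dot, zero_dotProduct]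
    · have h9 : A *ᵥ (A⁻¹ *ᵥ f) = f := by rw [Matrix.mulVec_mulVec, hA1, Matrix.one_mulVec]
      have h2 : qf A⁻¹ f = qf A (A⁻¹ *ᵥ f) := by
        rw [qf_dot, qf_dot, h9, dotProduct_comm]
      rw [h2]
      rcases eq_or_ne (A⁻¹ *ᵥ f) 0 with h3 | h3
      · rw [h3, qf_dot, zero_dotProduct]
      · exact (hApos _ h3).le
  · exact inv_anti hDs hi3 hA1 hD0 fun f => by
      rw [hA, qf_add]
      linarith [hdg f]
  · intro f
    have h1 : ((1 + c) • (D * Dᵀ)) * ((1 + c)⁻¹ • X₀) = 1 := by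
      have : (1 + c) ≠ 0 := by positivity
      rw [Matrix.smul_mul, Matrix.mul_smul, hi3, smul_smul, mul_inv_cancel₀ this, one_smul]
    have h2 : ∀ f, 0 ≤ qf A f := fun f => by
      rcases eq_or_ne f 0 with h | h
      · rw [h, qf_dot, zero_dotProduct]
      · exact (hApos _ h).le
    have h3 := inv_anti hAs hA1 h1 h2 (fun f => by
      rw [hA, qf_add, qf_smul]
      linarith [hL f]) f
    rw [qf_smul] at h3
    have h4 : (0 : ℝ) < 1 + c := by positivity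
    rwa [inv_mul_le_iff₀ h4] at h3

/-- TRN: a small trace of a high power gives a small norm. -/
theorem trn {S : Matrix X X ℝ} (hS : Sᵀ = S) {ε₁ : ℝ} (hε : 0 < ε₁) {n : ℕ} (hn : 1 ≤ n)
    (h : uS S ε₁ n < 1) (f : X → ℝ) : |qf S f| ≤ ε₁ * (f ⬝ᵥ f) := by
  obtain ⟨U, lam, h1, h2, h3⟩ := Pool.Agent.Loc.exists_diag_real hS
  have hpow : (S * Sᵀ) ^ n = U * Matrix.diagonal (fun l => lam l ^ (2 * n)) * Uᵀ := by
    rw [hS, ← pow_two, ← pow_mul, h3]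
  have htr : Matrix.trace ((S * Sᵀ) ^ n) = ∑ i, lam i ^ (2 * n) := by
    rw [hpow, Matrix.trace_mul_comm, ← mul_assoc, h1, one_mul, Matrix.trace_diagonal]
  rw [uS, htr, div_lt_one (by positivity)] at h
  have hlam : ∀ i, |lam i| ≤ ε₁ := by
    intro i
    have h4 : lam i ^ (2 * n) ≤ ε₁ ^ (2 * n) := by
      refine le_trans ?_ h.le
      refine Finset.single_le_sum (f := fun i => lam i ^ (2 * n)) (fun j _ => ?_)
        (Finset.mem_univ i)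
      exact (even_two_mul n).pow_nonneg (lam j)
    have h5 : |lam i| ^ (2 * n) ≤ ε₁ ^ (2 * n) := by
      rw [(even_two_mul n).pow_abs]
      exact h4
    exact le_of_pow_le_pow_left₀ (by omega) hε.le h5
  have h5 := h3 1
  simp only [pow_one] at h5
  have hq : ∀ w : X → ℝ, qf (U * Matrix.diagonal w * Uᵀ) f = ∑ i, w i * (Uᵀ *ᵥ f) i ^ 2 := by
    intro w
    have e1 : U * Matrix.diagonal w * Uᵀ = (Uᵀ)ᵀ * Matrix.diagonal w * Uᵀ := by
      rw [Matrix.transpose_transpose]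
    rw [e1, qf_conj, qf_dot]
    unfold dotProduct
    refine Finset.sum_congr rfl fun i _ => ?_
    rw [Matrix.mulVec_diagonal]
    ring
  have h10 : f ⬝ᵥ f = ∑ i, (Uᵀ *ᵥ f) i ^ 2 := by
    have e2 : f ⬝ᵥ f = qf (U * Matrix.diagonal (fun _ => 1) * Uᵀ) f := by
      rw [Matrix.diagonal_one, mul_one, h2, qf_one]
    rw [e2, hq]
    simp
  have h11 : qf S f = ∑ i, lam i * (Uᵀ *ᵥ f) i ^ 2 := by
    rw [← hq]
    exact congrArg (fun M => qf M f) h5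
  rw [h11, h10, Finset.mul_sum]
  refine (Finset.abs_sum_le_sum_abs _ _).trans (Finset.sum_le_sum fun i _ => ?_)
  rw [abs_mul, abs_of_nonneg (sq_nonneg ((Uᵀ *ᵥ f) i))]
  exact mul_le_mul_of_nonneg_right (hlam i) (sq_nonneg _)

/-- TRN in units of `X₀`. -/
theorem trn_conj {X₀ D M : Matrix X X ℝ} (hD : Dᵀ * X₀ * D = 1) (hM : Mᵀ = M)
    {ε₁ : ℝ} (hε : 0 < ε₁) {n : ℕ} (hn : 1 ≤ n) (h : uS (Dᵀ * M * D) ε₁ n < 1) (f : X → ℝ) :
    |qf M f| ≤ ε₁ * qf X₀ f := by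
  obtain ⟨hi1, hi2⟩ := inv_of hD
  have hS : (Dᵀ * M * D)ᵀ = Dᵀ * M * D := by
    rw [Matrix.transpose_mul, Matrix.transpose_mul, Matrix.transpose_transpose, hM, mul_assoc]
  have h1 := trn hS hε hn h (Dᵀ *ᵥ (X₀ *ᵥ f))
  have h2 : D *ᵥ (Dᵀ *ᵥ (X₀ *ᵥ f)) = f := by
    rw [Matrix.mulVec_mulVec, Matrix.mulVec_mulVec, hi2, Matrix.one_mulVec]
  rwa [qf_conj, ← qf_D hD, h2] at h1

end Pool.Agent.AN2.H48
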