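import Pool.Agent.Helper48_AN2.REA

/-!
# P1: the part of the form matrix in the functional

`X₀` is the form matrix at the beginning of the update (compressed to the box), `Dᵀ X₀ D = 1`; `F` is
the form matrix, `B` the ladder of `X₀`, `F - B` is measured in units of `X₀`:
`U = tr (S Sᵀ)^n / ε₁^{2n}`, `S = Dᵀ (F - B) D`.
-/

set_option autoImplicit false
set_option linter.unusedSectionVars false

open MeasureTheory ProbabilityTheory Function Filter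

open scoped ENNReal BigOperators Topology NNReal ComplexOrder Matrix

noncomputable section

namespace Pool.Agent.AN2.H48

open Pool.Agent.Anderson hiding box mem_box card_box
open Pool.Agent.Loc Pool.Agent.Mob Pool.Agent.Helper54.Bal
  Pool.Agent.Helper96.EXP Pool.Agent.BED
open Pool.Agent.LE.MN Pool.Agent.LE.CL Pool.Agent.LE.IR Pool.Agent.LE.QD
open Pool.Agent.LE.QF Pool.Agent.LE.QF.H40

variable {X : Type} [Fintype X] [DecidableEq X]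

/-- `tr (S Sᵀ)^n / ε₁^{2n}` -/
def uS (S : Matrix X X ℝ) (ε₁ : ℝ) (n : ℕ) : ℝ := Matrix.trace ((S * Sᵀ) ^ n) / ε₁ ^ (2 * n)

theorem uS_cx (S : Matrix X X ℝ) (ε₁ : ℝ) (n : ℕ) :
    (Matrix.trace ((cx S * (cx S)ᴴ) ^ n)).re / ε₁ ^ (2 * n) = uS S ε₁ n := by
  rw [cx_conj, ← cx_mul, cx_pow, cx_trace, uS]

/-- the inverse of `Dᵀ X₀ D = 1` -/
theorem inv_of {X₀ D : Matrix X X ℝ} (h : Dᵀ * X₀ * D = 1) : X₀ * D * Dᵀ = 1 ∧ D * Dᵀ * X₀ = 1 := by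
  have h1 : Dᵀ * (X₀ * D) = 1 := by rw [← mul_assoc, h]
  have h2 : (X₀ * D) * Dᵀ = 1 := mul_eq_one_comm.1 h1
  have h3 : D * (Dᵀ * X₀) = 1 := mul_eq_one_comm.1 h
  exact ⟨h2, by rw [mul_assoc]; exact h3⟩

theorem qf_D {X₀ D : Matrix X X ℝ} (h : Dᵀ * X₀ * D = 1) (u : X → ℝ) :
    qf X₀ (D *ᵥ u) = u ⬝ᵥ u := by
  rw [← qf_conj, h, qf_one]

/-- a form bound in units of `X₀` -/
theorem norm_conj {X₀ D M : Matrix X X ℝ} (h : Dᵀ * X₀ * D = 1) (hM : Mᵀ = M) {α : ℝ}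
    (hα : ∀ f, |qf M f| ≤ α * qf X₀ f) (u : X → ℝ) :
    ((Dᵀ * M * D) *ᵥ u) ⬝ᵥ ((Dᵀ * M * D) *ᵥ u) ≤ α ^ 2 * (u ⬝ᵥ u) := by
  refine sq_norm ?_ (fun f => ?_) u
  · rw [Matrix.transpose_mul, Matrix.transpose_mul, Matrix.transpose_transpose, hM, mul_assoc]
  · rw [qf_conj, ← qf_D h f]
    exact hα _

/-- FRU. -/
theorem fru (ytj : YtjStmt) (jal : JalStmt) (jma : JmaStmt)
    {ι : Type} [Fintype ι] [DecidableEq ι] (q : ℝ × (ι → ℝ))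
    (F Bm : ℝ × (ι → ℝ) → Matrix X X ℝ) (X₀ D v β e L : Matrix X X ℝ) (g : ι → Matrix X X ℝ)
    (α ε ε₁ ν : ℝ) (n : ℕ) (hα : 0 ≤ α) (hε : 0 ≤ ε) (hε₁ : 0 < ε₁) (hν : 0 ≤ ν) (hn : 1 ≤ n)
    (hX : X₀ᵀ = X₀) (hD : Dᵀ * X₀ * D = 1) (hv : vᵀ = v) (hβ : βᵀ = β) (he : eᵀ = e)
    (hL : Lᵀ = L) (hg : ∀ c, (g c)ᵀ = g c)
    (hF : HM F q v g (-(v * L * v) + e)) (hB : HM Bm q β (fun _ => 0) (-(β * L * β)))
    (hv0 : ∀ f, |qf v f| ≤ 2 * qf X₀ f) (hβ0 : ∀ f, |qf β f| ≤ 2 * qf X₀ f)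
    (he0 : ∀ f, |qf e f| ≤ ε * qf X₀ f) (hL0 : ∀ f, |qf L (X₀ *ᵥ f)| ≤ α * qf X₀ f)
    (hg0 : ∀ f, ∑ c, qf (D * Dᵀ) (g c *ᵥ f) ≤ ν * qf X₀ f) :
    ∃ (g' : ι → ℝ) (l' : ℝ),
      HJ (fun r => uS (Dᵀ * (F r - Bm r) * D) ε₁ n) q (uS (Dᵀ * (v - β) * D) ε₁ n) g' l' ∧
      l' ≤ (4 * n * ε / ε₁ + 8 * n ^ 2 * ν / ε₁ ^ 2 + 8 * n * α) *
        (uS (Dᵀ * (v - β) * D) ε₁ n + Fintype.card X * (1 / 4) ^ n) := by
  obtain ⟨hi1, hi2⟩ := inv_of hD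
  have hJ := hm_cx jal (hm_conj jal jma Dᵀ D (hm_sub jal hF hB))
  set S : Matrix X X ℝ := Dᵀ * (v - β) * D with hS
  set P : Matrix X X ℝ := Dᵀ * (X₀ * L * X₀) * D with hP
  set V : Matrix X X ℝ := Dᵀ * v * D with hV
  set W : Matrix X X ℝ := Dᵀ * β * D with hW
  set a : Matrix X X ℝ := -(P * V) with ha
  set b : Matrix X X ℝ := -(W * P) with hb
  -- the drift
  have key : Dᵀ * (-(v * L * v) + e - -(β * L * β)) * D = Dᵀ * e * D + (S * a + b * S) := by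
    have e1 : ∀ M N : Matrix X X ℝ, (Dᵀ * M * D) * (Dᵀ * (X₀ * L * X₀) * D) * (Dᵀ * N * D) =
        Dᵀ * (M * L * N) * D := by
      intro M N
      calc (Dᵀ * M * D) * (Dᵀ * (X₀ * L * X₀) * D) * (Dᵀ * N * D) =
            Dᵀ * M * (D * Dᵀ * X₀) * L * (X₀ * D * Dᵀ) * N * D := by simp only [mul_assoc]
        _ = Dᵀ * (M * L * N) * D := by
            rw [hi1, hi2]
            simp only [mul_assoc, mul_one]
    have e2 : S * a + b * S = -(Dᵀ * ((v - β) * L * v) * D) + -(Dᵀ * (β * L * (v - β)) * D) := by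
      rw [ha, hb, hS, hP, hV, hW, mul_neg, neg_mul, ← mul_assoc, e1, e1]
    rw [e2, ← neg_add, ← add_mul, ← mul_add, ← sub_eq_add_neg, ← sub_mul, ← mul_sub]
    congr 2
    rw [sub_mul, sub_mul, mul_sub]
    abel
  rw [key] at hJ
  have hPn : ∀ f : X → ℝ, (P *ᵥ f) ⬝ᵥ (P *ᵥ f) ≤ α ^ 2 * (f ⬝ᵥ f) := by
    refine norm_conj hD ?_ fun f => ?_
    · rw [Matrix.transpose_mul, Matrix.transpose_mul, hL, hX, mul_assoc]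
    · have e3 : X₀ * L * X₀ = X₀ᵀ * L * X₀ := by rw [hX]
      rw [e3, qf_conj]
      exact hL0 f
  have hVn : ∀ f : X → ℝ, (V *ᵥ f) ⬝ᵥ (V *ᵥ f) ≤ 2 ^ 2 * (f ⬝ᵥ f) := norm_conj hD hv hv0
  have hWn : ∀ f : X → ℝ, (W *ᵥ f) ⬝ᵥ (W *ᵥ f) ≤ 2 ^ 2 * (f ⬝ᵥ f) := norm_conj hD hβ hβ0
  have han : ∀ f : X → ℝ, (a *ᵥ f) ⬝ᵥ (a *ᵥ f) ≤ (2 * α) ^ 2 * (f ⬝ᵥ f) := by
    intro f
    have h1 := hPn (V *ᵥ f)
    have h2 := hVn f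
    have h3 : (a *ᵥ f) ⬝ᵥ (a *ᵥ f) = (P *ᵥ (V *ᵥ f)) ⬝ᵥ (P *ᵥ (V *ᵥ f)) := by
      rw [ha, Matrix.neg_mulVec, neg_dotProduct_neg, Matrix.mulVec_mulVec]
    rw [h3]
    nlinarith [sq_nonneg α, mul_le_mul_of_nonneg_left h2 (sq_nonneg α)]
  have hbn : ∀ f : X → ℝ, (b *ᵥ f) ⬝ᵥ (b *ᵥ f) ≤ (2 * α) ^ 2 * (f ⬝ᵥ f) := by
    intro f
    have h1 := hWn (P *ᵥ f)
    have h2 := hPn f
    have h3 : (b *ᵥ f) ⬝ᵥ (b *ᵥ f) = (W *ᵥ (P *ᵥ f)) ⬝ᵥ (W *ᵥ (P *ᵥ f)) := by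
      rw [hb, Matrix.neg_mulVec, neg_dotProduct_neg, Matrix.mulVec_mulVec]
    rw [h3]
    nlinarith
  have hen := norm_conj hD he he0
  have hgn : ∀ f : X → ℝ, ∑ c, ((Dᵀ * g c * D) *ᵥ f) ⬝ᵥ ((Dᵀ * g c * D) *ᵥ f) ≤
      ν * (f ⬝ᵥ f) := by
    intro f
    have h1 := hg0 (D *ᵥ f)
    rw [qf_D hD] at h1
    refine le_trans (le_of_eq ?_) h1
    refine Finset.sum_congr rfl fun c _ => ?_
    have e4 : D * Dᵀ = (Dᵀ)ᵀ * 1 * Dᵀ := by rw [mul_one, Matrix.transpose_transpose]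
    rw [e4, qf_conj, qf_one, Matrix.mulVec_mulVec, Matrix.mulVec_mulVec, mul_assoc]
  have hgt : ∀ c, (cx (Dᵀ * g c * D))ᴴ = cx (Dᵀ * g c * D) := by
    intro c
    rw [cx_conj, Matrix.transpose_mul, Matrix.transpose_mul, Matrix.transpose_transpose, hg c,
      mul_assoc]
  have hJ2 : HM (fun r => cx (Dᵀ * (F r - Bm r) * D)) q (cx S)
      (fun c => cx (Dᵀ * (g c - 0) * D)) (cx (Dᵀ * e * D) + (cx S * cx a + cx b * cx S)) := by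
    rw [← cx_mul, ← cx_mul, ← cx_add, ← cx_add]
    exact hJ
  simp only [sub_zero] at hJ2
  obtain ⟨g', l', h1, h2⟩ := mmu ytj jal ι q X _ (cx S) (cx (Dᵀ * e * D)) (cx a) (cx b)
    (fun c => cx (Dᵀ * g c * D)) (2 * α) ε ε₁ ν n (by positivity) hε hε₁ hν hn hJ2
    (n2_le hen) (n2_le han) (n2_le hbn) (n2_sum_le hgn)
    (fun u => by simp only [hgt]; exact n2_sum_le hgn u)
  simp only [uS_cx] at h1 h2
  refine ⟨g', l', h1, h2.trans (le_of_eq ?_)⟩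
  ring

end Pool.Agent.AN2.H48
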