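import Pool.Agent.Helper48_AN2.MMU
import Pool.Agent.Helper40_LQF.WTU2

/-!
# P1: real symmetric matrices, norms, jets
-/

set_option autoImplicit false
set_option linter.unusedSectionVars false

open MeasureTheory ProbabilityTheory Function Filter

open scoped ENNReal BigOperators Topology NNReal ComplexOrder Matrix

noncomputable section

namespace Pool.Agent.AN2.H48

open Pool.Agent.Anderson hiding box mem_box card_box
open Pool.Agent.Loc Pool.Agent.Mob Pool.Agent.Helper54.Bal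
  Pool.Agent.Helper96.EXP Pool.Agent.BED
open Pool.Agent.LE.MN Pool.Agent.LE.CL Pool.Agent.LE.IR Pool.Agent.LE.QD
open Pool.Agent.LE.QF Pool.Agent.LE.QF.H40

variable {X : Type} [Fintype X] [DecidableEq X]

/-- the complexification -/
def cx {m n : Type} (M : Matrix m n ℝ) : Matrix m n ℂ := M.map fun x => (x : ℂ)

theorem cx_mul {l m n : Type} [Fintype m] (M : Matrix l m ℝ) (N : Matrix m n ℝ) :
    cx (M * N) = cx M * cx N := by
  ext i j
  simp [cx, Matrix.mul_apply]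

theorem cx_add {m n : Type} (M N : Matrix m n ℝ) : cx (M + N) = cx M + cx N := by
  ext i j
  simp [cx]

theorem cx_one : cx (1 : Matrix X X ℝ) = 1 := by
  ext i j
  by_cases h : i = j
  · subst h
    simp [cx]
  · simp [cx, h]

theorem cx_conj {m n : Type} (M : Matrix m n ℝ) : (cx M)ᴴ = cx Mᵀ := by
  ext i j
  simp [cx, Matrix.conjTranspose_apply]

theorem cx_pow (M : Matrix X X ℝ) (n : ℕ) : cx M ^ n = cx (M ^ n) := by
  induction n with
  | zero => rw [pow_zero, pow_zero, cx_one]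
  | succ n ih => rw [pow_succ, pow_succ, ih, cx_mul]

theorem cx_trace (M : Matrix X X ℝ) : (Matrix.trace (cx M)).re = Matrix.trace M := by
  simp [cx, Matrix.trace]

theorem n2_cx (M : Matrix X X ℝ) (u : X → ℂ) :
    n2 (cx M *ᵥ u) = (M *ᵥ fun a => (u a).re) ⬝ᵥ (M *ᵥ fun a => (u a).re) +
      (M *ᵥ fun a => (u a).im) ⬝ᵥ (M *ᵥ fun a => (u a).im) := by
  unfold n2
  rw [← sq_dot, ← sq_dot, ← Finset.sum_add_distrib]
  refine Finset.sum_congr rfl fun a _ => ?_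
  have h1 : (cx M *ᵥ u) a = ∑ b, (M a b : ℂ) * u b := rfl
  have h2 : (M *ᵥ fun a => (u a).re) a = ∑ b, M a b * (u b).re := rfl
  have h3 : (M *ᵥ fun a => (u a).im) a = ∑ b, M a b * (u b).im := rfl
  rw [h1, h2, h3, ← Complex.normSq_eq_norm_sq, Complex.normSq_apply, Complex.re_sum,
    Complex.im_sum]
  simp only [Complex.re_ofReal_mul, Complex.im_ofReal_mul]
  ring

theorem n2_split (u : X → ℂ) :
    n2 u = (fun a => (u a).re) ⬝ᵥ (fun a => (u a).re) +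
      (fun a => (u a).im) ⬝ᵥ (fun a => (u a).im) := by
  have h := n2_cx (1 : Matrix X X ℝ) u
  rwa [cx_one, Matrix.one_mulVec, Matrix.one_mulVec, Matrix.one_mulVec] at h

/-- from the form to the norm -/
theorem sq_norm {M : Matrix X X ℝ} (hM : Mᵀ = M) {α : ℝ}
    (h : ∀ f : X → ℝ, |qf M f| ≤ α * (f ⬝ᵥ f)) (f : X → ℝ) :
    (M *ᵥ f) ⬝ᵥ (M *ᵥ f) ≤ α ^ 2 * (f ⬝ᵥ f) := by
  obtain ⟨U, lam, h1, h2, h3⟩ := Pool.Agent.Loc.exists_diag_real hM
  have h5 := h3 1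
  simp only [pow_one] at h5
  have hen : ∀ (N : Matrix X X ℝ) (i : X), (Uᵀ * (N * U)) i i = qf N (fun a => U a i) :=
    fun _ _ => rfl
  have hlam : ∀ i, |lam i| ≤ α := by
    intro i
    have h6 := hen M i
    have h7 := hen 1 i
    rw [one_mul, h1, Matrix.one_apply_eq, qf_one] at h7
    have h9 : Uᵀ * (M * U) = Matrix.diagonal lam := by
      calc Uᵀ * (M * U) = Uᵀ * ((U * Matrix.diagonal (fun l => lam l) * Uᵀ) * U) := by rw [← h5]
        _ = (Uᵀ * U) * Matrix.diagonal (fun l => lam l) * (Uᵀ * U) := by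
            simp only [mul_assoc]
        _ = _ := by rw [h1, one_mul, mul_one]
    rw [h9, Matrix.diagonal_apply_eq] at h6
    have h8 := h (fun a => U a i)
    rw [← h6, ← h7, mul_one] at h8
    exact h8
  have hM2 : (M *ᵥ f) ⬝ᵥ (M *ᵥ f) = qf (M ^ 2) f := by
    rw [qf_dot, pow_two, ← Matrix.mulVec_mulVec]
    exact (sym_dot hM f (M *ᵥ f)).symm
  have hq : ∀ w : X → ℝ, qf (U * Matrix.diagonal w * Uᵀ) f = ∑ i, w i * (Uᵀ *ᵥ f) i ^ 2 := by
    intro w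
    have e1 : U * Matrix.diagonal w * Uᵀ = (Uᵀ)ᵀ * Matrix.diagonal w * Uᵀ := by
      rw [Matrix.transpose_transpose]
    rw [e1, qf_conj, qf_dot]
    unfold dotProduct
    refine Finset.sum_congr rfl fun i _ => ?_
    rw [Matrix.mulVec_diagonal]
    ring
  rw [hM2, h3 2, hq]
  have h10 : f ⬝ᵥ f = ∑ i, (Uᵀ *ᵥ f) i ^ 2 := by
    have e2 : f ⬝ᵥ f = qf (U * Matrix.diagonal (fun _ => 1) * Uᵀ) f := by
      rw [Matrix.diagonal_one, mul_one, h2, qf_one]
    rw [e2, hq]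
    simp
  rw [h10, Finset.mul_sum]
  refine Finset.sum_le_sum fun i _ => mul_le_mul_of_nonneg_right ?_ (sq_nonneg _)
  exact sq_le_sq.2 ((hlam i).trans (le_abs_self α))

theorem n2_le {M : Matrix X X ℝ} {α : ℝ}
    (h : ∀ f : X → ℝ, (M *ᵥ f) ⬝ᵥ (M *ᵥ f) ≤ α * (f ⬝ᵥ f)) (u : X → ℂ) :
    n2 (cx M *ᵥ u) ≤ α * n2 u := by
  rw [n2_cx, n2_split u, mul_add]
  exact add_le_add (h _) (h _)

theorem n2_sum_le {ι : Type} [Fintype ι] {M : ι → Matrix X X ℝ} {α : ℝ}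
    (h : ∀ f : X → ℝ, ∑ c, (M c *ᵥ f) ⬝ᵥ (M c *ᵥ f) ≤ α * (f ⬝ᵥ f)) (u : X → ℂ) :
    ∑ c, n2 (cx (M c) *ᵥ u) ≤ α * n2 u := by
  rw [Finset.sum_congr rfl fun c _ => n2_cx (M c) u, n2_split u, mul_add,
    Finset.sum_add_distrib]
  exact add_le_add (h _) (h _)

/-! ### jets -/

section Jet

variable {ι : Type} [Fintype ι] [DecidableEq ι]

theorem hm_const (jal : JalStmt) {m n : Type} (q : ℝ × (ι → ℝ)) (A : Matrix m n ℝ) :
    HM (fun _ => A) q A (fun _ => 0) 0 := fun a b => (jal ι ℝ q).1 (A a b)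

theorem hm_sub (jal : JalStmt) {m n : Type} {q : ℝ × (ι → ℝ)}
    {F H : ℝ × (ι → ℝ) → Matrix m n ℝ} {v v' l l' : Matrix m n ℝ} {g g' : ι → Matrix m n ℝ}
    (hF : HM F q v g l) (hH : HM H q v' g' l') :
    HM (fun r => F r - H r) q (v - v') (fun c => g c - g' c) (l - l') :=
  fun a b => ((jal ι ℝ q).2.2.1 _ _ _ _ _ _ _ _ (hF a b) (hH a b)).2.1

theorem hm_add (jal : JalStmt) {m n : Type} {q : ℝ × (ι → ℝ)}
    {F H : ℝ × (ι → ℝ) → Matrix m n ℝ} {v v' l l' : Matrix m n ℝ} {g g' : ι → Matrix m n ℝ}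
    (hF : HM F q v g l) (hH : HM H q v' g' l') :
    HM (fun r => F r + H r) q (v + v') (fun c => g c + g' c) (l + l') :=
  fun a b => ((jal ι ℝ q).2.2.1 _ _ _ _ _ _ _ _ (hF a b) (hH a b)).1

theorem hm_conj (jal : JalStmt) (jma : JmaStmt) {n : Type} [Fintype n] [DecidableEq n]
    {q : ℝ × (ι → ℝ)}
    {F : ℝ × (ι → ℝ) → Matrix n n ℝ} {v l : Matrix n n ℝ} {g : ι → Matrix n n ℝ}
    (A B : Matrix n n ℝ) (hF : HM F q v g l) :
    HM (fun r => A * F r * B) q (A * v * B) (fun c => A * g c * B) (A * l * B) := by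
  have h1 := (jma ι ℝ q).1 n n n _ _ _ _ _ _ _ _ (hm_const jal q A) hF
  have h2 := (jma ι ℝ q).1 n n n _ _ _ _ _ _ _ _ h1 (hm_const jal q B)
  simpa using h2

theorem hm_cx (jal : JalStmt) {m n : Type} {q : ℝ × (ι → ℝ)}
    {F : ℝ × (ι → ℝ) → Matrix m n ℝ} {v l : Matrix m n ℝ} {g : ι → Matrix m n ℝ}
    (hF : HM F q v g l) :
    HM (fun r => cx (F r)) q (cx v) (fun c => cx (g c)) (cx l) :=
  fun a b => ((jal ι ℂ q).2.2.2.2.1 _ _ _ _ (hF a b)).1

end Jet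

end Pool.Agent.AN2.H48
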